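import Pool.Agent.R468.MG.W

/-!
ENTERING THE CYCLES of the `3x+1` map on the integers: the law of the entrance time into an arbitrary
(finite or infinite) union of cycles, and its countable additivity.

Author: helper468. Uses the harmonic relation of the level sets (Pool/Agent/R468/GL, MG,
Pool/Agent/H499R2/LT), the densities of the invariant sets (Pool/Agent/H499R2/NDK), the sparsity of the
periodic points (Pool/Agent/H319R2) and Poisson summation (Pool/Agent/R468/MF).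
-/

set_option autoImplicit false

namespace Pool.Agent.Results.MP_d02c56_nt.EnteringCycles

open Filter Topology

/-- the Collatz map on the integers -/
def C (x : ℤ) : ℤ := if x % 2 = 0 then x / 2 else 3 * x + 1

/-- the accelerated Collatz map: `C` for even `x`, `C ∘ C` for odd `x` -/
def T (x : ℤ) : ℤ := if x % 2 = 0 then x / 2 else (3 * x + 1) / 2

/-- `Z` is a union of cycles of `T`, finitely or infinitely many -/
def IsCycleUnion (Z : Set ℤ) : Prop := ∀ z ∈ Z, T z ∈ Z ∧ ∃ p : ℕ, 1 ≤ p ∧ T^[p] z = z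

/-- the trajectory of `x` under `T` is in `Z` for the first time after exactly `k` steps -/
def Enters (Z : Set ℤ) (x : ℤ) (k : ℕ) : Prop := T^[k] x ∈ Z ∧ ∀ i < k, T^[i] x ∉ Z

/-- the number of the positive integers `n ≤ x` such that the trajectory of `s n` enters `Z` after exactly
`k` steps -/
noncomputable def N (Z : Set ℤ) (s : ℤ) (x : ℝ) (k : ℕ) : ℕ :=
  {n : ℕ | 1 ≤ n ∧ (n : ℝ) ≤ x ∧ Enters Z (s * n) k}.ncard

/-- the number of the `r`-tuples of positive integers `n ≤ x` such that all `s n` enter `Z` at one and the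
same time -/
noncomputable def Tup (Z : Set ℤ) (s : ℤ) (r : ℕ) (x : ℝ) : ℕ :=
  {w : Fin r → ℕ | (∀ i, 1 ≤ w i ∧ (w i : ℝ) ≤ x) ∧ ∃ k : ℕ, ∀ i, Enters Z (s * w i) k}.ncard

/-- the positive integers with the property `P` have the natural density `δ` -/
def HasDensity (P : ℕ → Prop) (δ : ℝ) : Prop :=
  Tendsto (fun X : ℕ => ({n : ℕ | 1 ≤ n ∧ n ≤ X ∧ P n}.ncard : ℝ) / X) atTop (𝓝 δ)

/-- the constant of the mean value -/
noncomputable def μ : ℝ := 2 / Real.log (4 / 3)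

/-- the constant of the variance -/
noncomputable def σ2 : ℝ := 2 * Real.log 3 ^ 2 / Real.log (4 / 3) ^ 3

/-- the number `√(2 π σ2 log x)` -/
noncomputable def S (x : ℝ) : ℝ := Real.sqrt (2 * Real.pi * (σ2 * Real.log x))

/-- the value at `k` of the density of the normal distribution of mean `μ log x` and variance
`σ2 log x` -/
noncomputable def g (x : ℝ) (k : ℕ) : ℝ :=
  Real.exp (-(((k : ℝ) - μ * Real.log x) ^ 2 / (2 * (σ2 * Real.log x)))) / S x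

/-- the union of the five known cycles of `T`, of the lengths `2, 1, 3, 11, 1` -/
def known : Set ℤ := {1, 2, -1, -5, -7, -10, -17, -25, -37, -55, -82, -41, -61, -91, -136, -68, -34, 0}

/-- the union of the five known cycles of `C` -/
def knownC : Set ℤ := {1, 4, 2, -1, -2, -5, -14, -7, -20, -10, -17, -50, -25, -74, -37, -110, -55, -164, -82,
  -41, -122, -61, -182, -91, -272, -136, -68, -34, 0}

/-- THE LAW OF THE ENTRANCE INTO THE CYCLES. There are numbers `δ s Z`, `M s Z` and functions `Ψ s Z` with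
the following properties. Let `s = 1` or `s = -1`.

(1) Let `Z` be a union of cycles of `T`, finitely or infinitely many. Write `δ`, `M`, `Ψ` for `δ s Z`,
`M s Z`, `Ψ s Z`. Then

* `δ` is the density of the `n ≥ 1` such that the Collatz trajectory of `s n` reaches `Z`; `0 ≤ δ ≤ 1`,
  `δ > 0` iff `Z` has an element of the sign of `s`, and `δ = 1` iff the Collatz trajectories of all `s n`,
  `n ≥ 1`, reach `Z`;
* `Ψ` is continuous, has period one, lies between `δ (log 3)/2` and `δ (3 log 3)/2`, and its mean is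
  `δ`; its maximum is `M`, and `δ ≤ M`;
* LOCAL LIMIT LAW: the number of the `n ≤ x` such that `s n` enters `Z` after exactly `k` steps is
  `x g(x, k) (Ψ (log_3 (x / 2^k)) + o(1))`, uniformly for `|k - μ log x| ≤ K √(log x)`;
* this number is at most `A x / √(log x)` for all `k` and `x ≥ 2`, for some `A`;
* if `δ > 0`, the largest of these numbers, over all `k`, is `(M + o(1)) x / √(2 π σ2 log x)`, a number of
  this size is taken at some `k = μ log x + o(√(log x))`, and all most frequent entrance times `k` satisfy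
  `k = μ log x + o(√(log x))`;
* for every `r ≥ 1` the number of the `r`-tuples of positive integers `n ≤ x` such that the `s n` enter
  `Z` at one and the same time is asymptotic to `c_r x^r / (2 π σ2 log x)^((r-1)/2)`, with
  `c_r = (1 / √r) ∫ Ψ^r`.

(2) COUNTABLE ADDITIVITY: if the `Z i` are pairwise disjoint unions of cycles, then
`δ s (⋃ Z i) = ∑ δ s (Z i)` and `Ψ s (⋃ Z i) = ∑ Ψ s (Z i)`.

(3) Every trajectory reaches one of the five known cycles iff `δ 1 known = 1` and `δ (-1) known = 1`. -/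
theorem result : ∃ (δ : ℤ → Set ℤ → ℝ) (Ψ : ℤ → Set ℤ → ℝ → ℝ) (M : ℤ → Set ℤ → ℝ),
    (∀ s : ℤ, s = 1 ∨ s = -1 →
      (∀ Z : Set ℤ, IsCycleUnion Z →
        HasDensity (fun n => ∃ k : ℕ, C^[k] (s * n) ∈ Z) (δ s Z) ∧
        0 ≤ δ s Z ∧ δ s Z ≤ 1 ∧ (0 < δ s Z ↔ ∃ z ∈ Z, 0 < s * z) ∧
        (δ s Z = 1 ↔ ∀ n : ℕ, 1 ≤ n → ∃ k : ℕ, C^[k] (s * n) ∈ Z) ∧
        Continuous (Ψ s Z) ∧ (∀ u : ℝ, Ψ s Z (u + 1) = Ψ s Z u) ∧
        (∀ u : ℝ, δ s Z * (Real.log 3 / 2) ≤ Ψ s Z u ∧ Ψ s Z u ≤ δ s Z * (3 * Real.log 3 / 2)) ∧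
        (∫ u in (0 : ℝ)..1, Ψ s Z u = δ s Z) ∧
        (∀ u : ℝ, Ψ s Z u ≤ M s Z) ∧ (∃ u : ℝ, Ψ s Z u = M s Z) ∧ δ s Z ≤ M s Z ∧
        (∀ K ε : ℝ, 0 < ε → ∃ X₀ : ℝ, ∀ x : ℝ, X₀ ≤ x → ∀ k : ℕ,
          |(k : ℝ) - μ * Real.log x| ≤ K * Real.sqrt (Real.log x) →
          |(N Z s x k : ℝ) / (x * g x k) - Ψ s Z (Real.logb 3 (x / 2 ^ k))| ≤ ε) ∧
        (∃ A : ℝ, 0 < A ∧ ∀ x : ℝ, 2 ≤ x → ∀ k : ℕ, (N Z s x k : ℝ) ≤ A * x / Real.sqrt (Real.log x)) ∧
        (0 < δ s Z → ∀ ε : ℝ, 0 < ε → ∃ X₀ : ℝ, ∀ x : ℝ, X₀ ≤ x →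
          (∀ k : ℕ, (N Z s x k : ℝ) ≤ (M s Z + ε) * x / S x) ∧
          (∃ k : ℕ, |(k : ℝ) - μ * Real.log x| ≤ ε * Real.sqrt (Real.log x) ∧
            (M s Z - ε) * x / S x ≤ (N Z s x k : ℝ)) ∧
          ∀ k : ℕ, (∀ i : ℕ, N Z s x i ≤ N Z s x k) →
            |(k : ℝ) - μ * Real.log x| ≤ ε * Real.sqrt (Real.log x)) ∧
        (∀ r : ℕ, 1 ≤ r → Tendsto (fun x : ℝ => (Tup Z s r x : ℝ) * (S x ^ (r - 1) / x ^ r)) atTop
          (𝓝 (1 / Real.sqrt r * ∫ u in (0 : ℝ)..1, Ψ s Z u ^ r)))) ∧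
      ∀ Z : ℕ → Set ℤ, (∀ i, IsCycleUnion (Z i)) → (∀ i j, i ≠ j → Disjoint (Z i) (Z j)) →
        HasSum (fun i => δ s (Z i)) (δ s (⋃ i, Z i)) ∧
        ∀ u : ℝ, HasSum (fun i => Ψ s (Z i) u) (Ψ s (⋃ i, Z i) u)) ∧
    ((∀ x : ℤ, ∃ k : ℕ, C^[k] x ∈ knownC) ↔ δ 1 known = 1 ∧ δ (-1) known = 1) := by
  obtain ⟨δ, Ψ, M, H, H3⟩ := Pool.Agent.R468.MG.all_T
  refine ⟨δ, Ψ, M, fun s hs => ⟨fun Z hZ => ?_, fun Z hZ hdj => (H s hs).2 Z hZ hdj⟩, H3⟩
  have hC := (H s hs).1 Z hZ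
  have e : ∀ x : ℤ, (∃ k : ℕ, C^[k] x ∈ Z) ↔ ∃ k : ℕ, T^[k] x ∈ Z := fun x =>
    Pool.Agent.R468.MG.reach_iff (fun z hz => (hZ z hz).1) x
  refine ⟨?_, hC.nn, hC.le1, hC.pos, ?_, hC.cont, hC.per, hC.bd, hC.int, hC.le_max, hC.ex_max, hC.del, hC.loc, hC.up,
    fun hpos ε hε => ?_, hC.tup⟩
  · unfold HasDensity
    have h1 := Pool.Agent.R468.MG.dens_ent hs hC.hd
    have e2 : (fun X : ℕ => ({n : ℕ | 1 ≤ n ∧ n ≤ X ∧ ∃ k : ℕ, C^[k] (s * (n : ℤ)) ∈ Z}.ncard : ℝ) / X) =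
        fun X : ℕ => ({n : ℕ | 1 ≤ n ∧ n ≤ X ∧ ∃ k : ℕ, T^[k] (s * (n : ℤ)) ∈ Z}.ncard : ℝ) / X := by
      funext X
      simp only [e]
    rw [e2]
    exact h1
  · simp only [e]
    exact hC.one
  · obtain ⟨X₀, hX⟩ := hC.mode hpos ε hε
    refine ⟨X₀, fun x hx => ?_⟩
    obtain ⟨h1, h2, h3⟩ := hX x hx
    exact ⟨h1, h2, fun k hk => h3 k fun i => by
      have := hk i
      change ((N Z s x i : ℕ) : ℝ) ≤ ((N Z s x k : ℕ) : ℝ)
      exact_mod_cast this⟩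

end Pool.Agent.Results.MP_d02c56_nt.EnteringCycles
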