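import Pool.Agent.R344.SP.L

/-!
# The Liouville and the Moebius function along almost every Collatz trajectory

Let `T` be the accelerated Collatz map on the integers. For every modulus `M`, every
`κ < 2 / log (4 / 3)` and every `ε > 0`, all but at most `ε N` of the integers `n ≠ 0` with `|n| ≤ N`
(for `N` large) have the following property: for every `t ≤ κ log |n|`, the sum over `k < t` of the
Liouville function (or the Moebius function) of the terms `T^k n`, with any weights of absolute value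
at most one which depend on `k` and on the residue class of `T^k n` modulo `M`, is at most
`ε log |n|` in absolute value. In particular in every residue class which the trajectory visits with
positive frequency, half of the terms have an even number of prime factors. Since `|T^k n|` is about
`|n| (3 / 4) ^ (k / 2)` for almost all `n`, the range `t ≤ κ log |n|` covers the trajectories all the
way down to a size `|n| ^ o(1)`. Both signs of `n` are treated; the exceptional set is the same for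
all the weights that may be chosen after `N`.
-/

set_option autoImplicit false

namespace Pool.Agent.Results.MP_d02c56_nt.LiouvilleAlongOrbits

/-- The accelerated Collatz map on the integers. -/
def T (x : ℤ) : ℤ := if x % 2 = 0 then x / 2 else (3 * x + 1) / 2

/-- The Liouville function of `|x|`: one or minus one according to the parity of the number of the
prime factors of `|x|`, counted with multiplicity. -/
def liouville (x : ℤ) : ℤ := (-1) ^ ArithmeticFunction.cardFactors x.natAbs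

/-- The Moebius function of `|x|`. -/
def moebius (x : ℤ) : ℤ := ArithmeticFunction.moebius x.natAbs

theorem T_neg (x : ℤ) : T (-x) = -H499R2.CO.Tz (-1) x := by
  unfold T H499R2.CO.Tz
  split_ifs <;> omega

theorem iter_neg (x : ℤ) : ∀ k : ℕ, T^[k] (-x) = -(H499R2.CO.Tz (-1))^[k] x
  | 0 => rfl
  | k + 1 => by
    rw [Function.iterate_succ_apply', iter_neg x k, T_neg, Function.iterate_succ_apply']

theorem result (g : ℤ → ℤ) (hg : g = liouville ∨ g = moebius) (M : ℕ) (hM : 1 ≤ M)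
    (κ ε : ℝ) (hκ : κ < 2 / Real.log (4 / 3)) (hε : 0 < ε) :
    ∃ N₀ : ℕ, ∀ N ≥ N₀, ∀ w : ℕ → ℤ → ℝ, (∀ k x, |w k x| ≤ 1) → (∀ k x, w k (x + M) = w k x) →
      (Set.ncard {n : ℤ | n ≠ 0 ∧ |n| ≤ N ∧ ∃ t : ℕ, (t : ℝ) ≤ κ * Real.log |(n : ℝ)| ∧
        ε * Real.log |(n : ℝ)| < |∑ k ∈ Finset.range t, w k (T^[k] n) * g (T^[k] n)|} : ℝ) ≤ ε * N := by
  obtain ⟨κ', hκ0, hκκ, hκ1⟩ := R344.SP.kappa_bridge hκ
  obtain ⟨G, hGg, hGb, hG⟩ : ∃ G : ℕ → ℤ, (∀ x : ℤ, g x = G x.natAbs) ∧ (∀ n, |G n| ≤ 1) ∧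
      ∀ q : ℕ, 0 < q → ∀ a, H426R3.CL.SmallAvg (fun n => if n % q = a % q then G n else 0) := by
    rcases hg with h | h
    · refine ⟨H376R2.MR.lam, fun x => by rw [h]; rfl, H426R3.CL.lam_abs, R344.SP.lam_classes⟩
    · refine ⟨fun n => ArithmeticFunction.moebius n, fun x => by rw [h]; rfl, fun n => ?_,
        R344.SP.mu_classes⟩
      exact ArithmeticFunction.abs_moebius_le_one
  set α := {w : ℕ → ℤ → ℝ // (∀ k x, |w k x| ≤ 1) ∧ ∀ k x, w k (x + M) = w k x} with hα
  have hpos : ∀ d : ℤ, (d = 1 ∨ d = -1) → ∃ N₀ : ℕ, ∀ N ≥ N₀, ∀ w : α,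
      (Set.ncard {n : ℕ | 1 ≤ n ∧ n ≤ N ∧ ∃ t : ℕ, (t : ℝ) ≤ κ * Real.log n ∧ ε / 2 * Real.log n <
        |∑ k ∈ Finset.range t, w.1 k (d * (H499R2.CO.Tz d)^[k] n) *
          G ((H499R2.CO.Tz d)^[k] n).natAbs|} : ℝ) ≤ ε / 2 * N := by
    intro d hd
    obtain ⟨N₀, hN₀⟩ := R344.SP.mult_core hd hκ0 hκ1 hGb hG M hM (ε := ε / 2 / 2) (by positivity)
    refine R344.SP.finish (α := α) hκκ (fun w n t => |∑ k ∈ Finset.range t,
      w.1 k (d * (H499R2.CO.Tz d)^[k] n) * G ((H499R2.CO.Tz d)^[k] n).natAbs|) (by positivity)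
      ⟨N₀, fun N hN w S hS => ?_⟩
    refine hN₀ N hN (fun k x => w.1 k (d * x)) (fun k x => w.2.1 _ _) (fun k x => ?_) S hS
    rcases hd with h | h <;> subst h
    · simp only [one_mul]; exact w.2.2 k x
    · have h1 := w.2.2 k (-1 * (x + M))
      rw [← h1]
      ring_nf
  obtain ⟨N₁, hN₁⟩ := hpos 1 (Or.inl rfl)
  obtain ⟨N₂, hN₂⟩ := hpos (-1) (Or.inr rfl)
  refine ⟨max N₁ N₂, fun N hN w hw hper => ?_⟩
  have h1 := hN₁ N (le_trans (le_max_left _ _) hN) ⟨w, hw, hper⟩
  have h2 := hN₂ N (le_trans (le_max_right _ _) hN) ⟨w, hw, hper⟩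
  dsimp only at h1 h2
  set B₁ : Set ℕ := {n : ℕ | 1 ≤ n ∧ n ≤ N ∧ ∃ t : ℕ, (t : ℝ) ≤ κ * Real.log n ∧ ε / 2 * Real.log n <
        |∑ k ∈ Finset.range t, w k (1 * (H499R2.CO.Tz 1)^[k] n) *
          G ((H499R2.CO.Tz 1)^[k] n).natAbs|} with hB₁
  set B₂ : Set ℕ := {n : ℕ | 1 ≤ n ∧ n ≤ N ∧ ∃ t : ℕ, (t : ℝ) ≤ κ * Real.log n ∧ ε / 2 * Real.log n <
        |∑ k ∈ Finset.range t, w k (-1 * (H499R2.CO.Tz (-1))^[k] n) *
          G ((H499R2.CO.Tz (-1))^[k] n).natAbs|} with hB₂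
  have hf₁ : B₁.Finite := (Set.finite_Iic N).subset (fun n hn => hn.2.1)
  have hf₂ : B₂.Finite := (Set.finite_Iic N).subset (fun n hn => hn.2.1)
  have hsub : {n : ℤ | n ≠ 0 ∧ |n| ≤ N ∧ ∃ t : ℕ, (t : ℝ) ≤ κ * Real.log |(n : ℝ)| ∧
        ε * Real.log |(n : ℝ)| < |∑ k ∈ Finset.range t, w k (T^[k] n) * g (T^[k] n)|}
      ⊆ (fun n : ℕ => (n : ℤ)) '' B₁ ∪ (fun n : ℕ => -(n : ℤ)) '' B₂ := by
    rintro n ⟨hn0, hnN, t, ht, hbig⟩
    obtain ⟨m, rfl | rfl⟩ := n.eq_nat_or_neg
    · left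
      have hm : 1 ≤ m := by
        rcases Nat.eq_zero_or_pos m with h | h
        · subst h; exact absurd rfl hn0
        · exact h
      have hmR : (1 : ℝ) ≤ m := by exact_mod_cast hm
      have habs : |((m : ℤ) : ℝ)| = (m : ℝ) := by
        rw [Int.cast_natCast, abs_of_nonneg (by positivity)]
      rw [habs] at ht hbig
      refine ⟨m, ⟨hm, ?_, t, ht, ?_⟩, rfl⟩
      · rw [Nat.abs_cast] at hnN; exact_mod_cast hnN
      · have hlog : 0 ≤ Real.log m := Real.log_nonneg hmR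
        refine lt_of_le_of_lt (by nlinarith) (hbig.trans_eq ?_)
        congr 1
        apply Finset.sum_congr rfl
        intro k _
        rw [hGg, one_mul]
        rfl
    · right
      have hm : 1 ≤ m := by
        rcases Nat.eq_zero_or_pos m with h | h
        · subst h; exact absurd rfl hn0
        · exact h
      have hmR : (1 : ℝ) ≤ m := by exact_mod_cast hm
      have habs : |((-(m : ℤ) : ℤ) : ℝ)| = (m : ℝ) := by
        rw [Int.cast_neg, abs_neg, Int.cast_natCast, abs_of_nonneg (by positivity)]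
      rw [habs] at ht hbig
      refine ⟨m, ⟨hm, ?_, t, ht, ?_⟩, rfl⟩
      · rw [abs_neg, Nat.abs_cast] at hnN; exact_mod_cast hnN
      · have hlog : 0 ≤ Real.log m := Real.log_nonneg hmR
        refine lt_of_le_of_lt (by nlinarith) (hbig.trans_eq ?_)
        congr 1
        apply Finset.sum_congr rfl
        intro k _
        rw [hGg, iter_neg, Int.natAbs_neg, neg_one_mul]
  calc (Set.ncard {n : ℤ | n ≠ 0 ∧ |n| ≤ N ∧ ∃ t : ℕ, (t : ℝ) ≤ κ * Real.log |(n : ℝ)| ∧
        ε * Real.log |(n : ℝ)| < |∑ k ∈ Finset.range t, w k (T^[k] n) * g (T^[k] n)|} : ℝ)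
      ≤ (((fun n : ℕ => (n : ℤ)) '' B₁ ∪ (fun n : ℕ => -(n : ℤ)) '' B₂).ncard : ℝ) := by
        exact_mod_cast Set.ncard_le_ncard hsub ((hf₁.image _).union (hf₂.image _))
    _ ≤ (((fun n : ℕ => (n : ℤ)) '' B₁).ncard : ℝ) + (((fun n : ℕ => -(n : ℤ)) '' B₂).ncard : ℝ) := by
        exact_mod_cast Set.ncard_union_le _ _
    _ ≤ (B₁.ncard : ℝ) + (B₂.ncard : ℝ) := by
        have e1 := Set.ncard_image_le (f := fun n : ℕ => (n : ℤ)) hf₁
        have e2 := Set.ncard_image_le (f := fun n : ℕ => -(n : ℤ)) hf₂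
        exact_mod_cast Nat.add_le_add e1 e2
    _ ≤ ε * N := by linarith

end Pool.Agent.Results.MP_d02c56_nt.LiouvilleAlongOrbits
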