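import Pool.Agent.R344.SP.MD

/-!
# Arithmetic functions have a mean value along almost every Collatz trajectory

Let `T` be the accelerated Collatz map on the integers, and let `g` be a bounded real function which
can be approximated in the mean by periodic functions (a limit periodic function, for instance the
indicator function of the squarefree integers, of the integers without divisors in a given thin set,
or `φ(n) / n`). Then there is a number `L` such that for almost all integers `n`, of both signs, the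
average of `g` along the trajectory of `n` is close to `L` at every time scale `ε log |n|`, down to
the size `|n| ^ o(1)`, even with arbitrary bounded weights which depend on the time. If the periods
can be taken prime to three, then `L` is the ordinary mean value of `g`. For the squarefree integers
`L` is `27 / (4 π²) = 0.6839...`, whereas their density is `6 / π² = 0.6079...`.
-/

set_option autoImplicit false

namespace Pool.Agent.Results.MP_d02c56_nt.MeansAlongOrbits

open Finset Filter Topology

/-- The accelerated Collatz map on the integers. -/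
def T (x : ℤ) : ℤ := if x % 2 = 0 then x / 2 else (3 * x + 1) / 2

/-- Along the trajectories of almost all integers the function `g` has the mean value `L`: for every
`κ < 2 / log (4 / 3)` and `ε > 0` and for `N` large enough, for all weights `w` of absolute value at
most one, all but at most `ε N` of the integers `n ≠ 0` with `|n| ≤ N` are such that the weighted sum
of `g (T^k n) - L` over `k < t` is at most `ε log |n|` in absolute value for all `t ≤ κ log |n|`. -/
def HasMeanAlongOrbits (g : ℤ → ℝ) (L : ℝ) : Prop :=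
  ∀ κ ε : ℝ, κ < 2 / Real.log (4 / 3) → 0 < ε → ∃ N₀ : ℕ, ∀ N ≥ N₀, ∀ w : ℕ → ℝ, (∀ k, |w k| ≤ 1) →
    (Set.ncard {n : ℤ | n ≠ 0 ∧ |n| ≤ N ∧ ∃ t : ℕ, (t : ℝ) ≤ κ * Real.log |(n : ℝ)| ∧
      ε * Real.log |(n : ℝ)| < |∑ k ∈ range t, w k * (g (T^[k] n) - L)|} : ℝ) ≤ ε * N

/-- The function `g` can be approximated in the mean by functions with values of absolute value at
most one which are periodic, with a period `M` which satisfies `P M`. -/
def LimitPeriodic (P : ℕ → Prop) (g : ℤ → ℝ) : Prop :=
  ∀ η : ℝ, 0 < η → ∃ M : ℕ, 1 ≤ M ∧ P M ∧ ∃ h : ℤ → ℝ, (∀ x, |h x| ≤ 1) ∧ (∀ x, h (x + M) = h x) ∧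
    ∃ X₀ : ℕ, ∀ X : ℕ, X₀ ≤ X → ∑ x ∈ Icc (-(X : ℤ)) X, |g x - h x| ≤ η * X

theorem result :
    (∀ g : ℤ → ℝ, (∀ x, |g x| ≤ 1) → LimitPeriodic (fun _ => True) g →
      ∃ L : ℝ, HasMeanAlongOrbits g L) ∧
    (∀ g : ℤ → ℝ, (∀ x, |g x| ≤ 1) → LimitPeriodic (fun M => Nat.Coprime 3 M) g →
      ∃ L : ℝ, Tendsto (fun X : ℕ => (∑ x ∈ Icc (-(X : ℤ)) X, g x) / (2 * X + 1)) atTop (𝓝 L) ∧
        HasMeanAlongOrbits g L) ∧
    HasMeanAlongOrbits (fun x => if Squarefree x.natAbs then 1 else 0) (27 / (4 * Real.pi ^ 2)) := by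
  have key : ∀ (g : ℤ → ℝ) (L : ℝ), (∀ κ c : ℝ, κ < 2 / Real.log (4 / 3) → 0 < c → R344.SP.Ap T g κ L c) →
      HasMeanAlongOrbits g L := by
    intro g L h κ ε hκ hε
    obtain ⟨N₀, hN₀⟩ := h κ ε hκ hε
    exact ⟨N₀, fun N hN w hw => hN₀ N hN ⟨w, hw⟩⟩
  refine ⟨fun g hg h => ?_, fun g hg h => ?_, ?_⟩
  · obtain ⟨L, hL⟩ := R344.SP.limit_periodic_law (T := T) (fun _ => rfl) hg (fun η hη => by
      obtain ⟨M, hM, _, f, hf⟩ := h η hη
      exact ⟨M, hM, f, hf⟩)
    exact ⟨L, key g L hL⟩
  · obtain ⟨L, hL1, hL⟩ := R344.SP.limit_prime_law (T := T) (fun _ => rfl) hg h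
    exact ⟨L, hL1, key g L hL⟩
  · exact key _ _ fun κ c hκ hc => R344.SP.squarefree_law (T := T) (fun _ => rfl) hκ hc

end Pool.Agent.Results.MP_d02c56_nt.MeansAlongOrbits
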