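import Pool.Agent.R344.TH.P

/-!
# Almost all pairs of trajectories of `3x+1` on the integers are disjoint down to almost bounded values

For every `B` there is a constant `K` such that for all `Y ≥ 2` and all `N`, at most
`K N ^ 2 / (log Y) ^ B` of the pairs `(x, x')` of integers with `|x|, |x'| ≤ N` have trajectories with
a common term which both reach before taking a value of absolute value smaller than `Y`.

So for any function `f` tending to infinity, the trajectories of almost all pairs of integers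
`|x|, |x'| ≤ N` are disjoint until one of them has taken a value smaller than `f N`: the merging
into a common cycle (if there is one) takes place among almost bounded numbers.
-/

set_option autoImplicit false

namespace Pool.Agent.Results.MP_d02c56_nt.PairsMeetLow

open R344.TH
open Pool.Agent.H499R2.CO (Tz)

/-- The Collatz map on the integers. -/
def C (x : ℤ) : ℤ := if Even x then x / 2 else 3 * x + 1

/-- The trajectories of `x` and `x'` have a common term, which both reach before they take a value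
of absolute value smaller than `Y`. -/
def MeetAbove (Y : ℝ) (x x' : ℤ) : Prop :=
  ∃ k k' : ℕ, C^[k] x = C^[k'] x' ∧ (∀ j ≤ k, Y ≤ |((C^[j] x : ℤ) : ℝ)|) ∧
    ∀ j ≤ k', Y ≤ |((C^[j] x' : ℤ) : ℝ)|

theorem C_eq (x : ℤ) : C x = Cz 1 x := by
  unfold C Cz
  by_cases h : x % 2 = 0
  · rw [if_pos (Int.even_iff.2 h), if_pos h]
  · rw [if_neg (fun h' => h (Int.even_iff.1 h')), if_neg h]

theorem C_neg (x : ℤ) : C (-x) = -Cz (-1) x := by
  rw [C_eq]
  unfold Cz
  by_cases h : x % 2 = 0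
  · rw [if_pos (by omega), if_pos h]; omega
  · rw [if_neg (by omega), if_neg h]; ring

theorem iter_eq : ∀ (j : ℕ) (x : ℤ), C^[j] x = (Cz 1)^[j] x
  | 0, _ => rfl
  | j + 1, x => by rw [Function.iterate_succ_apply, Function.iterate_succ_apply, C_eq, iter_eq j]

theorem iter_neg : ∀ (j : ℕ) (x : ℤ), C^[j] (-x) = -(Cz (-1))^[j] x
  | 0, _ => rfl
  | j + 1, x => by rw [Function.iterate_succ_apply, Function.iterate_succ_apply, C_neg, iter_neg j]

theorem Cz_pos {d : ℤ} (hd : -1 ≤ d) {x : ℤ} (hx : 0 < x) : 0 < Cz d x := by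
  unfold Cz
  by_cases h : x % 2 = 0
  · rw [if_pos h]; omega
  · rw [if_neg h]; omega

theorem iter_pos {d : ℤ} (hd : -1 ≤ d) : ∀ (j : ℕ) {x : ℤ}, 0 < x → 0 < (Cz d)^[j] x
  | 0, _, hx => hx
  | j + 1, x, hx => by rw [Function.iterate_succ_apply]; exact iter_pos hd j (Cz_pos hd hx)

/-- from the map with `3x+d` to the shortcut map -/
theorem plain_meet {d : ℤ} (hd : d % 2 = 1) {Y : ℝ} (hY : |(d : ℝ)| ≤ Y) (hY0 : 0 < Y) {x x' : ℤ}
    (k k' : ℕ) (h : (Cz d)^[k] x = (Cz d)^[k'] x')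
    (h1 : ∀ j ≤ k, Y ≤ (((Cz d)^[j] x : ℤ) : ℝ)) (h2 : ∀ j ≤ k', Y ≤ (((Cz d)^[j] x' : ℤ) : ℝ)) :
    MeetZ d (Y / 2) x x' := by
  obtain ⟨b, hb⟩ : ∃ b : ℤ, b = (Cz d)^[k] x := ⟨_, rfl⟩
  obtain ⟨k₁, hk₁, hv₁⟩ := meets_hal hd (A := {b}) hY k x hb.symm h1
  obtain ⟨k₂, hk₂, hv₂⟩ := meets_hal hd (A := {b}) hY k' x' (by rw [← h]; exact hb.symm) h2
  have hh : Y / 2 ≤ Y := by linarith
  have key : ∀ (y y' : ℤ) (i i' : ℕ), (Tz d)^[i] y = b → 2 * (Tz d)^[i'] y' = b →
      (∀ j ≤ i, Y ≤ (((Tz d)^[j] y : ℤ) : ℝ)) → (∀ j ≤ i', Y ≤ (((Tz d)^[j] y' : ℤ) : ℝ)) →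
      (Tz d)^[i + 1] y = (Tz d)^[i'] y' ∧ ∀ j ≤ i + 1, Y / 2 ≤ (((Tz d)^[j] y : ℤ) : ℝ) := by
    intro y y' i i' e1 e2 e3 e4
    have e5 : (Tz d)^[i + 1] y = (Tz d)^[i'] y' := by
      rw [Function.iterate_succ_apply', e1]
      have := Tz_even (d := d) (y := b) (by omega)
      omega
    refine ⟨e5, fun j hj => ?_⟩
    rcases Nat.lt_or_ge i j with hij | hij
    · have : j = i + 1 := by omega
      subst this
      rw [e5]
      exact hh.trans (e4 i' le_rfl)
    · exact hh.trans (e3 j hij)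
  rcases hk₁ with e1 | e1 <;> rcases hk₂ with e2 | e2
  · exact ⟨k₁, k₂, e1.trans e2.symm, fun j hj => hh.trans (hv₁ j hj), fun j hj => hh.trans (hv₂ j hj)⟩
  · obtain ⟨f1, f2⟩ := key x x' k₁ k₂ e1 e2 hv₁ hv₂
    exact ⟨k₁ + 1, k₂, f1, f2, fun j hj => hh.trans (hv₂ j hj)⟩
  · obtain ⟨f1, f2⟩ := key x' x k₂ k₁ e2 e1 hv₂ hv₁
    exact ⟨k₁, k₂ + 1, f1.symm, fun j hj => hh.trans (hv₁ j hj), f2⟩
  · refine ⟨k₁, k₂, ?_, fun j hj => hh.trans (hv₁ j hj), fun j hj => hh.trans (hv₂ j hj)⟩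
    have e3 : 2 * (Tz d)^[k₁] x = b := e1
    have e4 : 2 * (Tz d)^[k₂] x' = b := e2
    omega

open scoped Classical in
/-- pairs of positive integers meeting above `Y / 2` under the shortcut map -/
noncomputable def P (d : ℤ) (Y : ℝ) (N : ℕ) : Finset (ℤ × ℤ) :=
  (Finset.Icc (1 : ℤ) N ×ˢ Finset.Icc (1 : ℤ) N).filter (fun p => MeetZ d (Y / 2) p.1 p.2)

theorem card_P (d : ℤ) (Y : ℝ) (N : ℕ) : ((P d Y N).card : ℝ) ≤ (N : ℝ) ^ 2 := by
  classical
  have h1 : (P d Y N).card ≤ N * N := by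
    unfold P
    refine (Finset.card_filter_le _ _).trans ?_
    rw [Finset.card_product, Int.card_Icc]
    have : (N + 1 - 1 : ℤ).toNat = N := by omega
    rw [this]
  have h2 : ((P d Y N).card : ℝ) ≤ ((N * N : ℕ) : ℝ) := by exact_mod_cast h1
  refine h2.trans (le_of_eq ?_)
  push_cast; ring

theorem card_pairs {Y : ℝ} (hY : 1 ≤ Y) (N : ℕ) :
    (Set.ncard {p : ℤ × ℤ | |p.1| ≤ N ∧ |p.2| ≤ N ∧ MeetAbove Y p.1 p.2} : ℝ)
      ≤ (P 1 Y N).card + (P (-1) Y N).card := by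
  classical
  have hsub : {p : ℤ × ℤ | |p.1| ≤ N ∧ |p.2| ≤ N ∧ MeetAbove Y p.1 p.2}
      ⊆ ((P 1 Y N ∪ (P (-1) Y N).image (fun p => (-p.1, -p.2)) : Finset (ℤ × ℤ)) : Set (ℤ × ℤ)) := by
    rintro ⟨x, x'⟩ ⟨h1, h2, k, k', h3, h4, h5⟩
    simp only at h1 h2 h3 h4 h5
    rw [Finset.mem_coe, Finset.mem_union]
    have hx0 : x ≠ 0 := by
      rintro rfl
      have := h4 0 (Nat.zero_le _)
      rw [Function.iterate_zero, id, Int.cast_zero, abs_zero] at this
      linarith
    have hx0' : x' ≠ 0 := by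
      rintro rfl
      have := h5 0 (Nat.zero_le _)
      rw [Function.iterate_zero, id, Int.cast_zero, abs_zero] at this
      linarith
    rcases lt_or_gt_of_ne hx0 with hx | hx <;> rcases lt_or_gt_of_ne hx0' with hx' | hx'
    · right
      obtain ⟨y, rfl⟩ : ∃ y, x = -y := ⟨-x, by ring⟩
      obtain ⟨y', rfl⟩ : ∃ y', x' = -y' := ⟨-x', by ring⟩
      rw [Finset.mem_image]
      refine ⟨(y, y'), ?_, rfl⟩
      unfold P
      rw [Finset.mem_filter, Finset.mem_product, Finset.mem_Icc, Finset.mem_Icc]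
      rw [abs_neg] at h1 h2
      have hy0 : 0 < y := by omega
      have hy0' : 0 < y' := by omega
      rw [abs_of_pos hy0] at h1
      rw [abs_of_pos hy0'] at h2
      refine ⟨⟨⟨by omega, h1⟩, ⟨by omega, h2⟩⟩, ?_⟩
      rw [iter_neg, iter_neg, neg_inj] at h3
      apply plain_meet (by norm_num) (by simpa using hY) (by linarith) k k' h3
      · intro j hj
        have h6 := h4 j hj
        have h7 := iter_pos (d := -1) le_rfl j hy0
        rw [iter_neg, Int.cast_neg, abs_neg, abs_of_pos (by exact_mod_cast h7)] at h6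
        exact h6
      · intro j hj
        have h6 := h5 j hj
        have h7 := iter_pos (d := -1) le_rfl j hy0'
        rw [iter_neg, Int.cast_neg, abs_neg, abs_of_pos (by exact_mod_cast h7)] at h6
        exact h6
    · exfalso
      obtain ⟨y, rfl⟩ : ∃ y, x = -y := ⟨-x, by ring⟩
      rw [iter_neg, iter_eq] at h3
      have h6 := iter_pos (d := -1) le_rfl k (x := y) (by omega)
      have h7 := iter_pos (d := 1) (by norm_num) k' hx'
      omega
    · exfalso
      obtain ⟨y, rfl⟩ : ∃ y, x' = -y := ⟨-x', by ring⟩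
      rw [iter_neg, iter_eq] at h3
      have h6 := iter_pos (d := -1) le_rfl k' (x := y) (by omega)
      have h7 := iter_pos (d := 1) (by norm_num) k hx
      omega
    · left
      unfold P
      rw [Finset.mem_filter, Finset.mem_product, Finset.mem_Icc, Finset.mem_Icc]
      rw [abs_of_pos hx] at h1
      rw [abs_of_pos hx'] at h2
      refine ⟨⟨⟨by omega, h1⟩, ⟨by omega, h2⟩⟩, ?_⟩
      rw [iter_eq, iter_eq] at h3
      apply plain_meet (by norm_num) (by simpa using hY) (by linarith) k k' h3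
      · intro j hj
        have h6 := h4 j hj
        have h7 := iter_pos (d := 1) (by norm_num) j hx
        rw [iter_eq, abs_of_pos (by exact_mod_cast h7)] at h6
        exact h6
      · intro j hj
        have h6 := h5 j hj
        have h7 := iter_pos (d := 1) (by norm_num) j hx'
        rw [iter_eq, abs_of_pos (by exact_mod_cast h7)] at h6
        exact h6
  have h1 := Set.ncard_le_ncard hsub (Finset.finite_toSet _)
  rw [Set.ncard_coe_finset] at h1
  have h2 := h1.trans ((Finset.card_union_le _ _).trans (Nat.add_le_add_left Finset.card_image_le _))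
  exact_mod_cast h2

theorem result (B : ℕ) : ∃ K : ℝ, ∀ Y : ℝ, 2 ≤ Y → ∀ N : ℕ,
    (Set.ncard {p : ℤ × ℤ | |p.1| ≤ N ∧ |p.2| ≤ N ∧ MeetAbove Y p.1 p.2} : ℝ)
      ≤ K * (N : ℝ) ^ 2 / (Real.log Y) ^ B := by
  obtain ⟨l₁, K₁, hl₁, hK₁, h₁⟩ := pairs_count (d := 1) (by norm_num) isCoprime_one_left B
  obtain ⟨l₂, K₂, hl₂, hK₂, h₂⟩ := pairs_count (d := -1) (by norm_num)
    (by norm_num) B
  set L : ℝ := max l₁ l₂ + 1 with hL
  have hL1 : l₁ ≤ L - 1 := by rw [hL]; linarith [le_max_left l₁ l₂]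
  have hL2 : l₂ ≤ L - 1 := by rw [hL]; linarith [le_max_right l₁ l₂]
  have hL0 : 0 < L := by linarith
  refine ⟨(K₁ + K₂) * 2 ^ B + 2 * (L + 1) ^ B, ?_⟩
  intro Y hY N
  have hlog : 0 < Real.log Y := Real.log_pos (by linarith)
  have hcard := card_pairs (by linarith : 1 ≤ Y) N
  have hln2a := Real.log_two_gt_d9
  have hln2b := Real.log_two_lt_d9
  rcases le_or_gt (L + 1) (Real.log Y) with hc | hc
  · have hlog2 : Real.log (Y / 2) = Real.log Y - Real.log 2 :=
      Real.log_div (by linarith) (by norm_num)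
    have hge : Real.log Y / 2 ≤ Real.log (Y / 2) := by rw [hlog2]; linarith
    have e1 := h₁ (Y / 2) (by linarith) (by rw [hlog2]; linarith) N
    have e2 := h₂ (Y / 2) (by linarith) (by rw [hlog2]; linarith) N
    have e3 : ∀ K : ℝ, 0 < K → K * (N : ℝ) ^ 2 / (Real.log (Y / 2)) ^ B
        ≤ K * 2 ^ B * (N : ℝ) ^ 2 / (Real.log Y) ^ B := by
      intro K hK
      have e4 : K * (N : ℝ) ^ 2 / (Real.log (Y / 2)) ^ B ≤ K * (N : ℝ) ^ 2 / (Real.log Y / 2) ^ B := by
        apply div_le_div_of_nonneg_left (by positivity) (by positivity)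
        exact pow_le_pow_left₀ (by positivity) hge B
      refine e4.trans (le_of_eq ?_)
      rw [div_pow]; field_simp
    have e5 : ((P 1 Y N).card : ℝ) ≤ K₁ * (N : ℝ) ^ 2 / (Real.log (Y / 2)) ^ B := e1
    have e6 : ((P (-1) Y N).card : ℝ) ≤ K₂ * (N : ℝ) ^ 2 / (Real.log (Y / 2)) ^ B := e2
    have e7 := e3 K₁ hK₁
    have e8 := e3 K₂ hK₂
    have e9 : 0 ≤ 2 * (L + 1) ^ B * (N : ℝ) ^ 2 / (Real.log Y) ^ B := by positivity
    calc _ ≤ ((P 1 Y N).card : ℝ) + (P (-1) Y N).card := hcard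
      _ ≤ K₁ * 2 ^ B * (N : ℝ) ^ 2 / (Real.log Y) ^ B + K₂ * 2 ^ B * (N : ℝ) ^ 2 / (Real.log Y) ^ B
          + 2 * (L + 1) ^ B * (N : ℝ) ^ 2 / (Real.log Y) ^ B := by linarith
      _ = _ := by ring
  · have e1 := card_P 1 Y N
    have e2 := card_P (-1) Y N
    have e3 : (Real.log Y) ^ B ≤ (L + 1) ^ B := pow_le_pow_left₀ hlog.le hc.le B
    rw [le_div_iff₀ (by positivity)]
    have e4 : 0 ≤ (N : ℝ) ^ 2 := by positivity
    have e5 : 0 ≤ (K₁ + K₂) * 2 ^ B * (N : ℝ) ^ 2 := by positivity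
    calc _ ≤ (2 * (N : ℝ) ^ 2) * (L + 1) ^ B := by
          apply mul_le_mul _ e3 (by positivity) (by positivity)
          linarith
      _ ≤ _ := by linarith

end Pool.Agent.Results.MP_d02c56_nt.PairsMeetLow
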